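import Pool.Agent.Work.MP_99322d_an.Params
import Pool.Agent.Work.MP_99322d_an.Top.Final
import Pool.Agent.Work.MP_99322d_an.Top.Sides

/-!
# MP_99322d: assembly (captain's file, helper35)

From the five numerical facts (upper bound at `P0`, lower bound on the four sides, and the optional
lower bound at `P0`) to the final statement.
-/

set_option autoImplicit false

namespace Pool.Agent.Work.MP_99322d_an.Fin

open Set

/-- the parameters `(c, b)` of the point `K + s u + t v` -/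
noncomputable def par (s t : ℝ) : ℝ × ℝ :=
  (((Kc : ℝ) + s * (uc : ℝ) + t * (vc : ℝ)) / 2 ^ 96,
    ((Kb : ℝ) + s * (ub : ℝ) + t * (vb : ℝ)) / 2 ^ 96)

theorem par_eq (p : ℝ × ℝ) : par (g1 p) (g2 p) = p := by
  unfold par
  rw [← fst_eq p, ← snd_eq p]

/-- the open box -/
def box : Set (ℝ × ℝ) := {p | 0 < g1 p ∧ g1 p < 1 ∧ 0 < g2 p ∧ g2 p < 1}

theorem isOpen_box : IsOpen box :=
  (isOpen_lt continuous_const continuous_g1).inter ((isOpen_lt continuous_g1 continuous_const).inter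
    ((isOpen_lt continuous_const continuous_g2).inter (isOpen_lt continuous_g2 continuous_const)))

theorem closure_box_subset : closure box ⊆ {p | 0 ≤ g1 p ∧ g1 p ≤ 1 ∧ 0 ≤ g2 p ∧ g2 p ≤ 1} := by
  apply closure_minimal
  · intro p hp
    exact ⟨hp.1.le, hp.2.1.le, hp.2.2.1.le, hp.2.2.2.le⟩
  · exact (isClosed_le continuous_const continuous_g1).inter
      ((isClosed_le continuous_g1 continuous_const).inter
      ((isClosed_le continuous_const continuous_g2).inter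
      (isClosed_le continuous_g2 continuous_const)))

theorem box_subset : box ⊆ Ioo (-2 : ℝ) (-1.9) ×ˢ Ioo (0 : ℝ) 0.00001 := by
  intro p hp
  obtain ⟨h1, h2, h3, h4⟩ := hp
  have e1 := fst_eq p
  have e2 := snd_eq p
  have kc : (Kc : ℝ) = -157020230998622551635529159504 := by norm_num [Kc]
  have kb : (Kb : ℝ) = 170461439397116929655534 := by norm_num [Kb]
  have k1 : (uc : ℝ) = 464331445196130320 := by norm_num [uc]
  have k2 : (ub : ℝ) = -233838043473987376 := by norm_num [ub]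
  have k3 : (vc : ℝ) = 219221772647675328 := by norm_num [vc]
  have k4 : (vb : ℝ) = 96830899211692112 := by norm_num [vb]
  rw [kc, k1, k3] at e1
  rw [kb, k2, k4] at e2
  have f1 : p.1 * 2 ^ 96 = -157020230998622551635529159504 + g1 p * 464331445196130320 +
      g2 p * 219221772647675328 := by
    rw [e1]; exact div_mul_cancel₀ _ (by positivity)
  have f2 : p.2 * 2 ^ 96 = 170461439397116929655534 + g1 p * (-233838043473987376) +
      g2 p * 96830899211692112 := by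
    rw [e2]; exact div_mul_cancel₀ _ (by positivity)
  refine ⟨⟨?_, ?_⟩, ⟨?_, ?_⟩⟩ <;> norm_num at f1 f2 ⊢ <;> nlinarith

/-- **Assembly.** -/
theorem assemble {l0 L0 L1 : ℝ} (hl0 : 1 < l0) (hL0 : 1 < L0) (hL01 : L0 < L1) (hL2 : L0 < 2)
    (hup : h P0.1 P0.2 ≤ (Real.log L0 : EReal)) (hlo : (Real.log l0 : EReal) ≤ h P0.1 P0.2)
    (hA0 : ∀ t : ℝ, 0 ≤ t → t ≤ 1 → (Real.log L1 : EReal) ≤ h (par 0 t).1 (par 0 t).2)
    (hA1 : ∀ t : ℝ, 0 ≤ t → t ≤ 1 → (Real.log L1 : EReal) ≤ h (par 1 t).1 (par 1 t).2)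
    (hB0 : ∀ t : ℝ, 0 ≤ t → t ≤ 1 → (Real.log L1 : EReal) ≤ h (par t 0).1 (par t 0).2)
    (hB1 : ∀ t : ℝ, 0 ≤ t → t ≤ 1 → (Real.log L1 : EReal) ≤ h (par t 1).1 (par t 1).2) :
    ∃ α : ℝ, 0 < α ∧ α < Real.log 2 ∧
      (∃ U : Set (ℝ × ℝ), IsOpen U ∧ U ⊆ Ioo (-2 : ℝ) (-1.9) ×ˢ Ioo (0 : ℝ) 0.00001 ∧
        ({p : ℝ × ℝ | h p.1 p.2 = (α : EReal)} ∩ U).Nonempty ∧
        {p : ℝ × ℝ | h p.1 p.2 = (α : EReal)} ∩ frontier U = ∅) ∧
      {p : ℝ × ℝ | h p.1 p.2 = (α : EReal)}.Nonempty ∧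
      ¬ IsPreconnected {p : ℝ × ℝ | h p.1 p.2 = (α : EReal)} := by
  have hlog : 0 < Real.log l0 := Real.log_pos hl0
  have htop : h P0.1 P0.2 ≠ ⊤ := fun hh => by
    rw [hh] at hup
    exact absurd hup (not_le.2 (EReal.coe_lt_top _))
  have hbot : h P0.1 P0.2 ≠ ⊥ := fun hh => by
    rw [hh] at hlo
    exact absurd hlo (not_le.2 (EReal.bot_lt_coe _))
  obtain ⟨α, hα⟩ : ∃ α : ℝ, h P0.1 P0.2 = (α : EReal) :=
    ⟨(h P0.1 P0.2).toReal, (EReal.coe_toReal htop hbot).symm⟩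
  have hα0 : Real.log l0 ≤ α := by
    rw [hα] at hlo
    exact_mod_cast hlo
  have hα1 : α ≤ Real.log L0 := by
    rw [hα] at hup
    exact_mod_cast hup
  have hlt : Real.log L0 < Real.log L1 := Real.log_lt_log (by linarith) hL01
  have hlt2 : Real.log L0 < Real.log 2 := Real.log_lt_log (by linarith) hL2
  set S : Set (ℝ × ℝ) := {p : ℝ × ℝ | h p.1 p.2 = (α : EReal)} with hS
  have hP : P0 ∈ S := hα
  have hQ : P1 ∈ S := by
    have h1 : h (P0.1 / P0.2 ^ 2) (1 / P0.2) = h P0.1 P0.2 := Top.h_sym P0_b_pos.ne'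
    change h (P0.1 / P0.2 ^ 2) (1 / P0.2) = (α : EReal)
    rw [h1, hα]
  obtain ⟨i1, i2, i3, i4⟩ := P0_inside
  have key : ∀ p : ℝ × ℝ, 0 ≤ g1 p → g1 p ≤ 1 → 0 ≤ g2 p → g2 p ≤ 1 →
      (g1 p = 0 ∨ g1 p = 1 ∨ g2 p = 0 ∨ g2 p = 1) → p ∉ S := by
    intro p h1 h2 h3 h4 hor hp
    have hp' : h p.1 p.2 = (α : EReal) := hp
    have hge : (Real.log L1 : EReal) ≤ h p.1 p.2 := by
      have hpe := par_eq p
      rcases hor with e | e | e | e
      · have := hA0 (g2 p) h3 h4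
        rw [← e, hpe] at this
        exact this
      · have := hA1 (g2 p) h3 h4
        rw [← e, hpe] at this
        exact this
      · have := hB0 (g1 p) h1 h2
        rw [← e, hpe] at this
        exact this
      · have := hB1 (g1 p) h1 h2
        rw [← e, hpe] at this
        exact this
    rw [hp'] at hge
    have h7 : Real.log L1 ≤ α := by exact_mod_cast hge
    linarith
  refine ⟨α, by linarith, by linarith, ⟨box, isOpen_box, box_subset, ⟨P0, hP, i1, i2, i3, i4⟩, ?_⟩,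
    ⟨P0, hP⟩, ?_⟩
  · rw [Set.eq_empty_iff_forall_notMem]
    rintro p ⟨hpS, hpf⟩
    have hcl : p ∈ closure box := frontier_subset_closure hpf
    obtain ⟨c1, c2, c3, c4⟩ := closure_box_subset hcl
    have hnb : p ∉ box := by
      rw [frontier, isOpen_box.interior_eq] at hpf
      exact hpf.2
    apply key p c1 c2 c3 c4 _ hpS
    by_contra hn
    push Not at hn
    exact hnb ⟨lt_of_le_of_ne c1 (Ne.symm hn.1), lt_of_le_of_ne c2 hn.2.1,
      lt_of_le_of_ne c3 (Ne.symm hn.2.2.1), lt_of_le_of_ne c4 hn.2.2.2⟩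
  · refine Top.not_preconnected_of_box continuous_g1 continuous_g2 (p := P0) (q := P1) hP hQ i1 i2
      i3 i4 ?_ ?_
    · have hout := P1_outside
      by_contra hn
      push Not at hn
      exact hout ⟨hn.1, hn.2.1, hn.2.2.1, hn.2.2.2⟩
    · intro p hp h1 h2 h3 h4
      by_contra hn
      apply key p h1 h2 h3 h4 _ hp
      by_contra hn2
      push Not at hn2
      exact hn hn2

/-- **Assembly without the lower bound at `P0`** (fallback). -/
theorem assemble0 {L0 L1 : ℝ} (hL0 : 1 < L0) (hL01 : L0 < L1) (hL2 : L0 < 2)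
    (hup : h P0.1 P0.2 ≤ (Real.log L0 : EReal))
    (hA0 : ∀ t : ℝ, 0 ≤ t → t ≤ 1 → (Real.log L1 : EReal) ≤ h (par 0 t).1 (par 0 t).2)
    (hA1 : ∀ t : ℝ, 0 ≤ t → t ≤ 1 → (Real.log L1 : EReal) ≤ h (par 1 t).1 (par 1 t).2)
    (hB0 : ∀ t : ℝ, 0 ≤ t → t ≤ 1 → (Real.log L1 : EReal) ≤ h (par t 0).1 (par t 0).2)
    (hB1 : ∀ t : ℝ, 0 ≤ t → t ≤ 1 → (Real.log L1 : EReal) ≤ h (par t 1).1 (par t 1).2) :
    ∃ α : ℝ, 0 ≤ α ∧ α ≤ Real.log 2 ∧ {p : ℝ × ℝ | h p.1 p.2 = (α : EReal)}.Nonempty ∧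
      ¬ IsPreconnected {p : ℝ × ℝ | h p.1 p.2 = (α : EReal)} := by
  obtain ⟨i1, i2, i3, i4⟩ := P0_inside
  refine Top.not_connected (c := P0.1) (b := P0.2) continuous_g1 continuous_g2 P0_b_pos.ne' ?_
    (by linarith : (0 : ℝ) < L0) hL01 hL2.le hup i1 i2 i3 i4 ?_ ?_
  · have h1 : P0.1 ≤ 0 := by unfold P0; norm_num [Pc]
    nlinarith [sq_nonneg (1 + P0.2)]
  · have hout := P1_outside
    by_contra hn
    push Not at hn
    exact hout ⟨hn.1, hn.2.1, hn.2.2.1, hn.2.2.2⟩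
  · intro p h1 h2 h3 h4 hor
    have hpe := par_eq p
    rcases hor with e | e | e | e
    · have := hA0 (g2 p) h3 h4
      rw [← e, hpe] at this
      exact this
    · have := hA1 (g2 p) h3 h4
      rw [← e, hpe] at this
      exact this
    · have := hB0 (g1 p) h1 h2
      rw [← e, hpe] at this
      exact this
    · have := hB1 (g1 p) h1 h2
      rw [← e, hpe] at this
      exact this

/-- **Assembly with the sides in the form `Top.SideLow`.** -/
theorem assemble_sides {l0 L0 L1 : ℝ} (hl0 : 1 < l0) (hL0 : 1 < L0) (hL01 : L0 < L1) (hL2 : L0 < 2)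
    (hup : h P0.1 P0.2 ≤ (Real.log L0 : EReal)) (hlo : (Real.log l0 : EReal) ≤ h P0.1 P0.2)
    (hA0 : Top.SideLow (Real.log L1) Kc Kb vc vb 0 1)
    (hA1 : Top.SideLow (Real.log L1) (Kc + uc) (Kb + ub) vc vb 0 1)
    (hB0 : Top.SideLow (Real.log L1) Kc Kb uc ub 0 1)
    (hB1 : Top.SideLow (Real.log L1) (Kc + vc) (Kb + vb) uc ub 0 1) :
    ∃ α : ℝ, 0 < α ∧ α < Real.log 2 ∧
      (∃ U : Set (ℝ × ℝ), IsOpen U ∧ U ⊆ Ioo (-2 : ℝ) (-1.9) ×ˢ Ioo (0 : ℝ) 0.00001 ∧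
        ({p : ℝ × ℝ | h p.1 p.2 = (α : EReal)} ∩ U).Nonempty ∧
        {p : ℝ × ℝ | h p.1 p.2 = (α : EReal)} ∩ frontier U = ∅) ∧
      {p : ℝ × ℝ | h p.1 p.2 = (α : EReal)}.Nonempty ∧
      ¬ IsPreconnected {p : ℝ × ℝ | h p.1 p.2 = (α : EReal)} := by
  refine assemble hl0 hL0 hL01 hL2 hup hlo ?_ ?_ ?_ ?_
  · intro t h0 h1
    have := hA0 t h0 h1
    simpa only [par, zero_mul, add_zero] using this
  · intro t h0 h1
    have := hA1 t h0 h1
    simpa only [par, one_mul, Int.cast_add] using this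
  · intro t h0 h1
    have := hB0 t h0 h1
    simpa only [par, zero_mul, add_zero] using this
  · intro t h0 h1
    have := hB1 t h0 h1
    have e1 : ((Kc : ℝ) + t * (uc : ℝ) + 1 * (vc : ℝ)) = ((Kc + vc : ℤ) : ℝ) + t * (uc : ℝ) := by
      push_cast; ring
    have e2 : ((Kb : ℝ) + t * (ub : ℝ) + 1 * (vb : ℝ)) = ((Kb + vb : ℤ) : ℝ) + t * (ub : ℝ) := by
      push_cast; ring
    simpa only [par, e1, e2] using this

end Pool.Agent.Work.MP_99322d_an.Fin
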