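import Pool.Agent.Work.MP_99322d_an.Fin.Assemble
import Pool.Agent.Work.MP_99322d_an.Weights
import Pool.Agent.Work.MP_99322d_an.L.DA0
import Pool.Agent.Work.MP_99322d_an.L.DA1
import Pool.Agent.Work.MP_99322d_an.L.DB0
import Pool.Agent.Work.MP_99322d_an.L.DB1

/-!
# MP_99322d: the final statement from the two bounds at `P0` (helper35)

The four sides are proved; `hup` is part U, `hlo` is the fifth data set.
-/

set_option autoImplicit false

namespace Pool.Agent.Work.MP_99322d_an.Fin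

open Set

/-- The final statement from the upper and the lower bound at `P0`. -/
theorem of_upper {l0 : ℝ} (hl0 : 1 < l0) (hlo : (Real.log l0 : EReal) ≤ h P0.1 P0.2)
    (hup : h P0.1 P0.2 ≤ (Real.log L0q : EReal)) :
    ∃ α : ℝ, 0 < α ∧ α < Real.log 2 ∧
      (∃ U : Set (ℝ × ℝ), IsOpen U ∧ U ⊆ Ioo (-2 : ℝ) (-1.9) ×ˢ Ioo (0 : ℝ) 0.00001 ∧
        ({p : ℝ × ℝ | h p.1 p.2 = (α : EReal)} ∩ U).Nonempty ∧
        {p : ℝ × ℝ | h p.1 p.2 = (α : EReal)} ∩ frontier U = ∅) ∧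
      {p : ℝ × ℝ | h p.1 p.2 = (α : EReal)}.Nonempty ∧
      ¬ IsPreconnected {p : ℝ × ℝ | h p.1 p.2 = (α : EReal)} :=
  assemble_sides hl0 one_lt_L0q L0q_lt_L1q (L0q_lt_L1q.trans L1q_lt_two) hup hlo
    L.DA0.side L.DA1.side L.DB0.side L.DB1.side

/-- The fallback without the lower bound at `P0`. -/
theorem of_upper_zero (hup : h P0.1 P0.2 ≤ (Real.log L0q : EReal)) :
    ∃ α : ℝ, 0 ≤ α ∧ α ≤ Real.log 2 ∧ {p : ℝ × ℝ | h p.1 p.2 = (α : EReal)}.Nonempty ∧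
      ¬ IsPreconnected {p : ℝ × ℝ | h p.1 p.2 = (α : EReal)} :=
  Top.end_theorem_zero L0q_pos L0q_le_two L0q_lt_L1q hup
    L.DA0.side L.DA1.side L.DB0.side L.DB1.side

end Pool.Agent.Work.MP_99322d_an.Fin
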